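import Pool.Agent.Helper56.Coclass.Lattice

/-!
# Finite coclass gives a uniserial lattice for the point group (interface statement I1)
-/

set_option linter.unusedSectionVars false
set_option linter.unusedVariables false

namespace Pool.Agent.Helper56.Coclass

open Pool.Agent.Helper11.Coclass Subgroup

variable {p : ℕ} [Fact p.Prime]

/-- A nonzero integer multiple of the lattice contains a `p`-power multiple. -/
theorem exists_pow_smul_mem {d : ℕ} (L : Submodule ℤ_[p] (Fin d → ℤ_[p])) (c : ℕ) (hc : c ≠ 0)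
    (hL : ∀ v : Fin d → ℤ_[p], ((c : ℕ) : ℤ_[p]) • v ∈ L) :
    ∃ a : ℕ, ∀ v : Fin d → ℤ_[p], ((p : ℤ_[p]) ^ a) • v ∈ L := by
  have hc' : ((c : ℕ) : ℤ_[p]) ≠ 0 := by exact_mod_cast hc
  refine ⟨(((c : ℕ) : ℤ_[p])).valuation, fun v => ?_⟩
  have h1 := PadicInt.unitCoeff_spec hc'
  set u := PadicInt.unitCoeff hc' with hu
  have h2 : ((p : ℤ_[p]) ^ (((c : ℕ) : ℤ_[p])).valuation) • v =
      ((c : ℕ) : ℤ_[p]) • (((u⁻¹ : ℤ_[p]ˣ) : ℤ_[p]) • v) := by
    rw [smul_smul]
    congr 1
    conv_rhs => rw [h1]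
    rw [mul_comm, ← mul_assoc, Units.inv_mul, one_mul]
  rw [h2]
  exact hL _

section main

variable {R : Type*} [Group R] [TopologicalSpace R]
  [IsTopologicalGroup R] {T : Subgroup R} {d : ℕ} [T.Normal]

theorem finite_quotient_smul {M : Type*} [AddCommGroup M] [Module ℤ_[p] M]
    (L : Submodule ℤ_[p] M) (hf : Finite (M ⧸ L)) :
    ∃ c : ℕ, c ≠ 0 ∧ ∀ v : M, ((c : ℕ) : ℤ_[p]) • v ∈ L := by
  refine ⟨Nat.card (M ⧸ L), Nat.card_ne_zero.mpr ⟨inferInstance, hf⟩, fun v => ?_⟩
  rw [← Submodule.Quotient.mk_eq_zero, Submodule.Quotient.mk_smul, Nat.cast_smul_eq_nsmul]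
  exact card_nsmul_eq_zero'

/-- A stable submodule of finite index contained in the lattice of `closedLCS R i₀` is the lattice
of some `closedLCS R j`. -/
theorem exists_eq_closedLCS (h : IsSpaceGroup p R T d)
    (φ : T ≃ₜ* Multiplicative (Fin d → ℤ_[p])) (i₀ : ℕ)
    (hi₀ : ∀ i, i₀ ≤ i → (closedLCS R (i + 1)).relIndex (closedLCS R i) = p)
    (hT : closedLCS R i₀ ≤ T) (L : Submodule ℤ_[p] (Fin d → ℤ_[p]))
    (hLle : ∀ v ∈ L, emb φ v ∈ closedLCS R i₀)
    (hst : ∀ g : R ⧸ T, ∀ v ∈ L, rho φ g v ∈ L)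
    (a : ℕ) (ha : ∀ v : Fin d → ℤ_[p], ((p : ℤ_[p]) ^ a) • v ∈ L) :
    ∃ j, i₀ ≤ j ∧ push φ L.toAddSubgroup = closedLCS R j := by
  classical
  set Λ := push φ L.toAddSubgroup with hΛ
  have hΛn : Λ.Normal := by
    constructor
    intro x hx r
    obtain ⟨v, hv, rfl⟩ := (mem_push φ _ _).mp hx
    rw [← emb_rho_mk]
    exact (emb_mem_push φ _ _).mpr (hst _ v hv)
  have hpow : powSub φ a ≤ Λ := by
    rintro _ ⟨w, rfl⟩
    exact (emb_mem_push φ _ _).mpr (ha w)
  have hopen : IsOpen (Λ : Set R) :=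
    Subgroup.isOpen_mono hpow (powSub_isOpen φ (isOpen_T h) a)
  have hle0 : Λ ≤ closedLCS R i₀ := by
    intro x hx
    obtain ⟨v, hv, rfl⟩ := (mem_push φ _ _).mp hx
    exact hLle v hv
  have hex : ∃ m, ¬ Λ ≤ closedLCS R (i₀ + m) := by
    have hd : 0 < d := h.dim_pos
    set v : Fin d → ℤ_[p] := ((p : ℤ_[p]) ^ a) • (fun _ => 1) with hv
    have hvne : v ≠ 0 := by
      intro h0
      have h1 := congrFun h0 ⟨0, hd⟩
      simp only [hv, Pi.smul_apply, smul_eq_mul, mul_one, Pi.zero_apply] at h1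
      exact pow_ne_zero a (by exact_mod_cast (Fact.out : p.Prime).ne_zero) h1
    have hvΛ : emb φ v ∈ Λ := (emb_mem_push φ _ _).mpr (ha _)
    have hne1 : emb φ v ≠ 1 := by
      intro h1
      rw [← emb_zero φ] at h1
      exact hvne (emb_injective φ h1)
    have hk : ∃ k, emb φ v ∉ powSub φ k := by
      by_contra hcon
      push Not at hcon
      exact hne1 (eq_one_of_forall_powSub φ _ hcon)
    obtain ⟨k, hk⟩ := hk
    obtain ⟨j, hj⟩ := exists_le_powSub h φ k
    refine ⟨j, fun hcon => hk (hj ?_)⟩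
    exact closedLCS_antitone R (Nat.le_add_left j i₀) (hcon hvΛ)
  set m := Nat.find hex with hm
  have hm1 : ¬ Λ ≤ closedLCS R (i₀ + m) := Nat.find_spec hex
  have hm0 : m ≠ 0 := by
    intro h0
    rw [h0] at hm1
    exact hm1 hle0
  obtain ⟨n, hn⟩ := Nat.exists_eq_succ_of_ne_zero hm0
  have hn1 : Λ ≤ closedLCS R (i₀ + n) := by
    by_contra hcon
    have := Nat.find_min hex (m := n) (by omega)
    exact this hcon
  refine ⟨i₀ + n, Nat.le_add_right _ _, le_antisymm hn1 ?_⟩
  rw [hn] at hm1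
  have hm1' : ¬ Λ ≤ closedLCS R (i₀ + n + 1) := hm1
  have hidx := hi₀ (i₀ + n) (Nat.le_add_right _ _)
  have hsup : closedLCS R (i₀ + n) ≤ closedLCS R (i₀ + n + 1) ⊔ Λ := by
    have h1 : closedLCS R (i₀ + n + 1) ≤ closedLCS R (i₀ + n + 1) ⊔ Λ := le_sup_left
    have h2 : closedLCS R (i₀ + n + 1) ⊔ Λ ≤ closedLCS R (i₀ + n) :=
      sup_le (closedLCS_succ_le R _) hn1
    have h3 := Subgroup.relIndex_mul_relIndex _ _ _ h1 h2
    rw [hidx] at h3
    rcases (Nat.dvd_prime (Fact.out : p.Prime)).mp (Dvd.intro _ h3) with h4 | h4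
    · exfalso
      apply hm1'
      exact le_sup_right.trans (Subgroup.relIndex_eq_one.mp h4)
    · rw [h4] at h3
      have hp0 : 0 < p := (Fact.out : p.Prime).pos
      have h5 : (closedLCS R (i₀ + n + 1) ⊔ Λ).relIndex (closedLCS R (i₀ + n)) = 1 :=
        Nat.eq_of_mul_eq_mul_left hp0 (by rw [h3, mul_one])
      exact Subgroup.relIndex_eq_one.mp h5
  apply le_of_le_commutator_sup R _ Λ (quotient_nilpotent h Λ hopen)
  refine hsup.trans (sup_le ?_ le_sup_right)
  apply Subgroup.topologicalClosure_minimal _ le_sup_left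
  apply Subgroup.isClosed_of_isOpen
  exact Subgroup.isOpen_mono le_sup_right hopen

end main

/-- I1. Finite coclass of `R` gives a uniserial lattice for the point group. -/
theorem I1 (p : ℕ) [Fact p.Prime] (R : Type) [Group R] [TopologicalSpace R]
    [IsTopologicalGroup R] (T : Subgroup R) [T.Normal] (d : ℕ) (h : IsSpaceGroup p R T d)
    (hc : FiniteCoclass p R) :
    ∃ (M : Type) (_ : AddCommGroup M) (_ : Module ℤ_[p] M) (_ : DistribMulAction (R ⧸ T) M)
      (_ : SMulCommClass (R ⧸ T) ℤ_[p] M),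
      IsUniserialLattice p (R ⧸ T) M ∧ Module.finrank ℤ_[p] M = d := by
  classical
  have hT2 := h.hausdorff
  have hfq := h.finite_quotient
  obtain ⟨φ⟩ := h.lattice
  obtain ⟨i₁, hi₁⟩ := eventually_relIndex_eq R hc (closedLCS_ne h hc)
  obtain ⟨j₁, hj₁⟩ := exists_le_powSub h φ 0
  set i₀ := max i₁ j₁ with hi₀def
  have hi₀ : ∀ i, i₀ ≤ i → (closedLCS R (i + 1)).relIndex (closedLCS R i) = p :=
    fun i hi => hi₁ i ((le_max_left _ _).trans hi)
  have hT : closedLCS R i₀ ≤ T :=
    ((closedLCS_antitone R (le_max_right _ _)).trans hj₁).trans (powSub_le φ 0)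
  set N := pull φ (closedLCS R i₀) (closedLCS_isClosed R i₀) with hN
  have hNst : ∀ (g : R ⧸ T), ∀ v ∈ N, rho φ g v ∈ N := by
    intro g v hv
    induction g using QuotientGroup.induction_on with
    | H r =>
      change emb φ (rho φ (r : R ⧸ T) v) ∈ closedLCS R i₀
      rw [emb_rho_mk]
      exact (closedLCS_normal R i₀).conj_mem _ hv r
  -- `N` has finite index
  have hNfin : ∃ a : ℕ, ∀ v : Fin d → ℤ_[p], ((p : ℤ_[p]) ^ a) • v ∈ N := by
    obtain ⟨r, hr⟩ := hc
    obtain ⟨t, -, ht⟩ := hr i₀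
    have hcard : (closedLCS R i₀).index ≠ 0 := by
      have : (closedLCS R i₀).index = p ^ (Group.nilpotencyClass (R ⧸ closedLCS R i₀) + t) := ht
      rw [this]
      exact pow_ne_zero _ (Fact.out : p.Prime).ne_zero
    apply exists_pow_smul_mem N _ hcard
    intro v
    rw [Nat.cast_smul_eq_nsmul]
    change emb φ ((closedLCS R i₀).index • v) ∈ closedLCS R i₀
    have hpw : ∀ n : ℕ, emb φ (n • v) = emb φ v ^ n := by
      intro n
      induction n with
      | zero => simp [emb_zero]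
      | succ n ih => rw [succ_nsmul, emb_add, ih, pow_succ]
    rw [hpw]
    exact Subgroup.pow_index_mem _ _
  obtain ⟨a, ha⟩ := hNfin
  have hpne : (p : ℤ_[p]) ≠ 0 := by exact_mod_cast (Fact.out : p.Prime).ne_zero
  have hpane : (p : ℤ_[p]) ^ a ≠ 0 := pow_ne_zero a hpne
  let act : DistribMulAction (R ⧸ T) N :=
    { smul := fun g x => ⟨rho φ g x.1, hNst g x.1 x.2⟩
      one_smul := by
        intro x
        apply Subtype.ext
        change rho φ 1 x.1 = x.1
        rw [map_one]; rfl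
      mul_smul := by
        intro g k x
        apply Subtype.ext
        change rho φ (g * k) x.1 = rho φ g (rho φ k x.1)
        rw [map_mul]; rfl
      smul_zero := by
        intro g
        apply Subtype.ext
        change rho φ g 0 = 0
        rw [map_zero]
      smul_add := by
        intro g x y
        apply Subtype.ext
        change rho φ g (x.1 + y.1) = rho φ g x.1 + rho φ g y.1
        rw [map_add] }
  have hact : ∀ (g : R ⧸ T) (x : N), ((g • x : N) : Fin d → ℤ_[p]) = rho φ g x.1 :=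
    fun g x => rfl
  have hcomm : SMulCommClass (R ⧸ T) ℤ_[p] N := by
    constructor
    intro g c x
    apply Subtype.ext
    rw [hact, Submodule.coe_smul, Submodule.coe_smul, hact, map_smul]
  refine ⟨N, inferInstance, inferInstance, act, hcomm, ?_, ?_⟩
  · refine ⟨inferInstance, ?_, ?_, ?_, ?_⟩
    · intro c x hcx
      exact smul_eq_zero.mp hcx
    · have hd : 0 < d := h.dim_pos
      refine ⟨⟨⟨((p : ℤ_[p]) ^ a) • (fun _ => 1), ha _⟩, 0, ?_⟩⟩
      intro h0
      have h1 := congrArg (fun x : N => x.1 ⟨0, hd⟩) h0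
      simp only [Pi.smul_apply, smul_eq_mul, mul_one] at h1
      exact hpane h1
    · intro g hg
      induction g using QuotientGroup.induction_on with
      | H r =>
        rw [QuotientGroup.eq_one_iff]
        apply h.faithful
        rw [Subgroup.mem_centralizer_iff]
        intro t ht
        obtain ⟨v, rfl⟩ := exists_emb φ ht
        have h1 := hg ⟨((p : ℤ_[p]) ^ a) • v, ha v⟩
        have h2 : rho φ (r : R ⧸ T) (((p : ℤ_[p]) ^ a) • v) = ((p : ℤ_[p]) ^ a) • v :=
          congrArg Subtype.val h1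
        rw [map_smul] at h2
        have h3 : rho φ (r : R ⧸ T) v = v := smul_right_injective _ hpane h2
        have h4 := emb_rho_mk φ r v
        rw [h3] at h4
        rw [eq_mul_inv_iff_mul_eq] at h4
        exact h4
    · intro L hL hLf
      set L' : Submodule ℤ_[p] (Fin d → ℤ_[p]) := L.map N.subtype with hL'
      have hmem : ∀ v, v ∈ L' ↔ ∃ hv : v ∈ N, (⟨v, hv⟩ : N) ∈ L := by
        intro v
        rw [hL', Submodule.mem_map]
        constructor
        · rintro ⟨⟨w, hw⟩, hwL, rfl⟩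
          exact ⟨hw, hwL⟩
        · rintro ⟨hv, hvL⟩
          exact ⟨⟨v, hv⟩, hvL, rfl⟩
      have hst' : ∀ g : R ⧸ T, ∀ v ∈ L', rho φ g v ∈ L' := by
        intro g v hv
        obtain ⟨hvN, hvL⟩ := (hmem v).mp hv
        exact (hmem _).mpr ⟨hNst g v hvN, hL g _ hvL⟩
      obtain ⟨c, hc0, hcL⟩ := finite_quotient_smul L hLf
      obtain ⟨b, hb⟩ : ∃ b : ℕ, ∀ v : Fin d → ℤ_[p], ((p : ℤ_[p]) ^ b) • v ∈ L' := by
        apply exists_pow_smul_mem L' (p ^ a * c)
          (mul_ne_zero (pow_ne_zero _ (Fact.out : p.Prime).ne_zero) hc0)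
        intro v
        have h1 := hcL ⟨((p : ℤ_[p]) ^ a) • v, ha v⟩
        refine (hmem _).mpr ?_
        have h2 : (((p ^ a * c : ℕ)) : ℤ_[p]) • v =
            ((c : ℕ) : ℤ_[p]) • (((p : ℤ_[p]) ^ a) • v) := by
          rw [smul_smul]; congr 1; push_cast; ring
        rw [h2]
        exact ⟨N.smul_mem _ (ha v), h1⟩
      obtain ⟨j, hj, hjeq⟩ := exists_eq_closedLCS h φ i₀ hi₀ hT L'
        (fun v hv => ((hmem v).mp hv).1) hst' b hb
      have hjT : closedLCS R j ≤ T := (closedLCS_antitone R hj).trans hT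
      have hLj : L'.toAddSubgroup =
          (pull φ (closedLCS R j) (closedLCS_isClosed R j)).toAddSubgroup := by
        ext v
        change v ∈ L'.toAddSubgroup ↔ emb φ v ∈ closedLCS R j
        rw [← hjeq, emb_mem_push]
      have hinj : Function.Injective N.subtype.toAddMonoidHom := Subtype.val_injective
      rw [← AddSubgroup.relIndex_map_map_of_injective _ _ hinj]
      have e1 : (L.toAddSubgroup).map N.subtype.toAddMonoidHom = L'.toAddSubgroup := rfl
      have e2 : (AddSubgroup.closure {y : N | ∃ g : R ⧸ T, ∃ x ∈ L, y = g • x - x}).map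
          N.subtype.toAddMonoidHom = aug φ L'.toAddSubgroup := by
        rw [AddMonoidHom.map_closure]
        unfold aug
        congr 1
        ext v
        constructor
        · rintro ⟨_, ⟨g, x, hx, rfl⟩, rfl⟩
          exact ⟨g, x.1, (hmem _).mpr ⟨x.2, hx⟩, rfl⟩
        · rintro ⟨g, x, hx, rfl⟩
          obtain ⟨hxN, hxL⟩ := (hmem x).mp hx
          exact ⟨g • (⟨x, hxN⟩ : N) - ⟨x, hxN⟩, ⟨g, ⟨x, hxN⟩, hxL, rfl⟩, rfl⟩
      rw [e1, e2, hLj, ← pull_closedLCS_succ φ j hjT, relIndex_pull φ _ _ _ _ hjT]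
      exact hi₀ j hj
  · have hV : Module.finrank ℤ_[p] (Fin d → ℤ_[p]) = d := Module.finrank_fin_fun _
    apply le_antisymm
    · calc Module.finrank ℤ_[p] N ≤ Module.finrank ℤ_[p] (Fin d → ℤ_[p]) :=
            Submodule.finrank_le N
        _ = d := hV
    · calc d = Module.finrank ℤ_[p] (Fin d → ℤ_[p]) := hV.symm
        _ ≤ Module.finrank ℤ_[p] N := by
            let f : (Fin d → ℤ_[p]) →ₗ[ℤ_[p]] N :=
              LinearMap.codRestrict N (((p : ℤ_[p]) ^ a) • LinearMap.id) (fun v => ha v)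
            apply LinearMap.finrank_le_finrank_of_injective (f := f)
            intro v w hvw
            have h1 : ((p : ℤ_[p]) ^ a) • v = ((p : ℤ_[p]) ^ a) • w :=
              congrArg Subtype.val hvw
            exact smul_right_injective _ hpane h1

end Pool.Agent.Helper56.Coclass
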