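import Pool.Agent.Helper56.Coclass.Series

/-!
# The action of the point group on the translation lattice
-/

set_option linter.unusedSectionVars false

namespace Pool.Agent.Helper56.Coclass

open Pool.Agent.Helper11.Coclass Subgroup

/-- A continuous additive map between finite free `ℤ_p`-modules is `ℤ_p`-linear. -/
theorem map_padic_smul {p : ℕ} [Fact p.Prime] {d : ℕ} (f : (Fin d → ℤ_[p]) → (Fin d → ℤ_[p]))
    (hf : Continuous f) (hadd : ∀ x y, f (x + y) = f x + f y) (c : ℤ_[p])
    (x : Fin d → ℤ_[p]) : f (c • x) = c • f x := by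
  have h0 : f 0 = 0 := by
    have := hadd 0 0
    rw [add_zero] at this
    simpa using this
  have hnat : ∀ n : ℕ, f (((n : ℕ) : ℤ_[p]) • x) = ((n : ℕ) : ℤ_[p]) • f x := by
    intro n
    induction n with
    | zero => simp [h0]
    | succ n ih =>
      rw [Nat.cast_succ, add_smul, add_smul, hadd, ih, one_smul, one_smul]
  have h1 : Continuous fun c : ℤ_[p] => f (c • x) := hf.comp (continuous_id.smul continuous_const)
  have h2 : Continuous fun c : ℤ_[p] => c • f x := continuous_id.smul continuous_const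
  have := DenseRange.equalizer (PadicInt.denseRange_natCast (p := p)) h1 h2 (funext hnat)
  exact congrFun this c

variable {p : ℕ} [Fact p.Prime] {R : Type*} [Group R] [TopologicalSpace R]
  [IsTopologicalGroup R] {T : Subgroup R} {d : ℕ}

/-- The embedding of the lattice in the space group. -/
noncomputable def emb (φ : T ≃ₜ* Multiplicative (Fin d → ℤ_[p])) (v : Fin d → ℤ_[p]) : R :=
  (φ.symm (Multiplicative.ofAdd v) : T)

section emb

variable (φ : T ≃ₜ* Multiplicative (Fin d → ℤ_[p]))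

theorem emb_add (v w : Fin d → ℤ_[p]) : emb φ (v + w) = emb φ v * emb φ w := by
  simp only [emb, ofAdd_add, map_mul, Subgroup.coe_mul]

theorem emb_zero : emb φ 0 = 1 := by
  simp only [emb, ofAdd_zero, map_one, Subgroup.coe_one]

theorem emb_neg (v : Fin d → ℤ_[p]) : emb φ (-v) = (emb φ v)⁻¹ := by
  simp only [emb, ofAdd_neg, map_inv, Subgroup.coe_inv]

theorem emb_sub (v w : Fin d → ℤ_[p]) : emb φ (v - w) = emb φ v * (emb φ w)⁻¹ := by
  rw [sub_eq_add_neg, emb_add, emb_neg]

theorem emb_mem (v : Fin d → ℤ_[p]) : emb φ v ∈ T := (φ.symm (Multiplicative.ofAdd v)).2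

theorem emb_injective : Function.Injective (emb φ) := by
  intro v w h
  have h1 : φ.symm (Multiplicative.ofAdd v) = φ.symm (Multiplicative.ofAdd w) := Subtype.ext h
  exact Multiplicative.ofAdd.injective (φ.symm.injective h1)

theorem emb_continuous : Continuous (emb φ) := by
  unfold emb
  exact continuous_subtype_val.comp (φ.symm.continuous.comp continuous_ofAdd)

theorem exists_emb {t : R} (ht : t ∈ T) : ∃ v, emb φ v = t := by
  refine ⟨Multiplicative.toAdd (φ ⟨t, ht⟩), ?_⟩
  simp [emb]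

/-- The embedding as a homomorphism. -/
noncomputable def embHom : Multiplicative (Fin d → ℤ_[p]) →* R where
  toFun v := emb φ (Multiplicative.toAdd v)
  map_one' := emb_zero φ
  map_mul' v w := emb_add φ _ _

variable [T.Normal]

/-- Conjugation on the lattice. -/
noncomputable def cj (r : R) (v : Fin d → ℤ_[p]) : Fin d → ℤ_[p] :=
  Multiplicative.toAdd (φ ⟨r * emb φ v * r⁻¹, ‹T.Normal›.conj_mem _ (emb_mem φ v) r⟩)

theorem emb_cj (r : R) (v : Fin d → ℤ_[p]) : emb φ (cj φ r v) = r * emb φ v * r⁻¹ := by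
  simp [emb, cj]

theorem cj_continuous (r : R) : Continuous (cj φ r) := by
  unfold cj
  apply continuous_toAdd.comp
  apply φ.continuous.comp
  apply Continuous.subtype_mk
  exact (continuous_const.mul (emb_continuous φ)).mul continuous_const

theorem cj_add (r : R) (v w : Fin d → ℤ_[p]) : cj φ r (v + w) = cj φ r v + cj φ r w := by
  apply emb_injective φ
  rw [emb_cj, emb_add, emb_add, emb_cj, emb_cj]
  group

/-- The representation of `R` on the lattice. -/
noncomputable def rhoR : R →* Module.End ℤ_[p] (Fin d → ℤ_[p]) where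
  toFun r :=
    { toFun := cj φ r
      map_add' := cj_add φ r
      map_smul' := fun c v => map_padic_smul _ (cj_continuous φ r) (cj_add φ r) c v }
  map_one' := by
    apply LinearMap.ext
    intro v
    apply emb_injective φ
    change emb φ (cj φ 1 v) = emb φ v
    rw [emb_cj]; group
  map_mul' r s := by
    apply LinearMap.ext
    intro v
    apply emb_injective φ
    change emb φ (cj φ (r * s) v) = emb φ (cj φ r (cj φ s v))
    rw [emb_cj, emb_cj, emb_cj]; group

theorem rhoR_apply (r : R) (v : Fin d → ℤ_[p]) : rhoR φ r v = cj φ r v := rfl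

theorem rhoR_of_mem {t : R} (ht : t ∈ T) : rhoR φ t = 1 := by
  obtain ⟨w, rfl⟩ := exists_emb φ ht
  apply LinearMap.ext
  intro v
  apply emb_injective φ
  change emb φ (cj φ (emb φ w) v) = emb φ v
  rw [emb_cj, ← emb_add, add_comm, emb_add]; group

/-- The representation of the point group on the lattice. -/
noncomputable def rho : R ⧸ T →* Module.End ℤ_[p] (Fin d → ℤ_[p]) :=
  QuotientGroup.lift T (rhoR φ) (fun t ht => rhoR_of_mem φ ht)

theorem rho_mk (r : R) (v : Fin d → ℤ_[p]) : rho φ (r : R ⧸ T) v = cj φ r v := rfl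

theorem emb_rho_mk (r : R) (v : Fin d → ℤ_[p]) :
    emb φ (rho φ (r : R ⧸ T) v) = r * emb φ v * r⁻¹ := by
  rw [rho_mk, emb_cj]

theorem rho_continuous (g : R ⧸ T) : Continuous (rho φ g) := by
  induction g using QuotientGroup.induction_on with
  | H r => exact cj_continuous φ r

/-! ### Subgroups of the lattice -/

omit [T.Normal] in
/-- The set `p ^ k V` is open in `V`. -/
theorem isOpen_pow_smul (k : ℕ) :
    IsOpen {v : Fin d → ℤ_[p] | ∃ w : Fin d → ℤ_[p], v = ((p : ℤ_[p]) ^ k) • w} := by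
  have h : {v : Fin d → ℤ_[p] | ∃ w : Fin d → ℤ_[p], v = ((p : ℤ_[p]) ^ k) • w} =
      Set.pi Set.univ (fun _ => Metric.closedBall (0 : ℤ_[p]) ((p : ℝ) ^ (-(k : ℤ)))) := by
    ext v
    simp only [Set.mem_ofPred_eq, Set.mem_pi, Set.mem_univ, true_imp_iff, mem_closedBall_zero_iff,
      PadicInt.norm_le_pow_iff_mem_span_pow, Ideal.mem_span_singleton]
    constructor
    · rintro ⟨w, rfl⟩ i
      exact ⟨w i, by simp⟩
    · intro hv
      choose w hw using hv
      exact ⟨w, funext fun i => by simpa using hw i⟩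
  rw [h]
  apply isOpen_set_pi Set.finite_univ
  intro i _
  apply IsUltrametricDist.isOpen_closedBall
  apply ne_of_gt
  have : (0 : ℝ) < p := by exact_mod_cast (Fact.out : p.Prime).pos
  positivity

theorem eq_zero_of_forall_pow_smul (v : Fin d → ℤ_[p])
    (hv : ∀ k : ℕ, ∃ w : Fin d → ℤ_[p], v = ((p : ℤ_[p]) ^ k) • w) : v = 0 := by
  funext i
  by_contra hne
  have h1 : ∀ k : ℕ, ‖v i‖ ≤ (p : ℝ) ^ (-(k : ℤ)) := by
    intro k
    rw [PadicInt.norm_le_pow_iff_mem_span_pow, Ideal.mem_span_singleton]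
    obtain ⟨w, hw⟩ := hv k
    exact ⟨w i, by rw [hw]; simp⟩
  have hp : (1 : ℝ) < p := by exact_mod_cast (Fact.out : p.Prime).one_lt
  have hpos : 0 < ‖v i‖ := norm_pos_iff.mpr hne
  obtain ⟨k, hk⟩ := exists_pow_lt_of_lt_one hpos (inv_lt_one_of_one_lt₀ hp)
  have := h1 k
  rw [zpow_neg, zpow_natCast, ← inv_pow] at this
  linarith

/-- The open normal subgroup `p ^ k V` of `R`. -/
noncomputable def powSub (k : ℕ) : Subgroup R where
  carrier := {x | ∃ w : Fin d → ℤ_[p], x = emb φ (((p : ℤ_[p]) ^ k) • w)}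
  mul_mem' := by
    rintro _ _ ⟨v, rfl⟩ ⟨w, rfl⟩
    exact ⟨v + w, by rw [smul_add, emb_add]⟩
  one_mem' := ⟨0, by rw [smul_zero, emb_zero]⟩
  inv_mem' := by
    rintro _ ⟨v, rfl⟩
    exact ⟨-v, by rw [smul_neg, emb_neg]⟩

theorem mem_powSub (k : ℕ) (x : R) :
    x ∈ powSub φ k ↔ ∃ w : Fin d → ℤ_[p], x = emb φ (((p : ℤ_[p]) ^ k) • w) := Iff.rfl

theorem powSub_le (k : ℕ) : powSub φ k ≤ T := by
  rintro _ ⟨w, rfl⟩
  exact emb_mem φ _

instance powSub_normal (k : ℕ) : (powSub φ k).Normal := by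
  constructor
  rintro _ ⟨w, rfl⟩ r
  refine ⟨rhoR φ r w, ?_⟩
  rw [← map_smul, rhoR_apply, emb_cj]

theorem emb_isOpenMap (hT : IsOpen (T : Set R)) : IsOpenMap (emb φ) := by
  have h1 : IsOpenMap (Subtype.val : T → R) := hT.isOpenMap_subtype_val
  have h2 : IsOpenMap (fun v : Fin d → ℤ_[p] => φ.symm (Multiplicative.ofAdd v)) :=
    φ.symm.toHomeomorph.isOpenMap.comp isOpenMap_ofAdd
  exact h1.comp h2

theorem powSub_isOpen (hT : IsOpen (T : Set R)) (k : ℕ) : IsOpen (powSub φ k : Set R) := by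
  have h := emb_isOpenMap φ hT _ (isOpen_pow_smul (p := p) (d := d) k)
  have heq : (powSub φ k : Set R) =
      emb φ '' {v : Fin d → ℤ_[p] | ∃ w : Fin d → ℤ_[p], v = ((p : ℤ_[p]) ^ k) • w} := by
    ext x
    constructor
    · rintro ⟨w, rfl⟩
      exact ⟨_, ⟨w, rfl⟩, rfl⟩
    · rintro ⟨_, ⟨w, rfl⟩, rfl⟩
      exact ⟨w, rfl⟩
  rw [heq]
  exact h

theorem eq_one_of_forall_powSub (x : R) (hx : ∀ k, x ∈ powSub φ k) : x = 1 := by
  obtain ⟨v, rfl⟩ := exists_emb φ (powSub_le φ 0 (hx 0))
  have : v = 0 := by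
    apply eq_zero_of_forall_pow_smul
    intro k
    obtain ⟨w, hw⟩ := hx k
    exact ⟨w, emb_injective φ hw⟩
  rw [this, emb_zero]

end emb

section spaceGroup

variable [T.Normal] (h : IsSpaceGroup p R T d)

include h

theorem isOpen_T : IsOpen (T : Set R) := by
  have := h.finite_quotient
  have : T.FiniteIndex := Subgroup.finiteIndex_of_finite_quotient
  exact Subgroup.isOpen_of_isClosed_of_finiteIndex T h.closed

theorem quotient_isPGroup (U : Subgroup R) [U.Normal] (hU : IsOpen (U : Set R)) :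
    IsPGroup p (R ⧸ U) ∧ Finite (R ⧸ U) := by
  obtain ⟨k, hk⟩ := h.pro_p U inferInstance hU
  have hc : Nat.card (R ⧸ U) = p ^ k := hk
  refine ⟨IsPGroup.of_card hc, ?_⟩
  apply Nat.finite_of_card_ne_zero
  rw [hc]
  exact pow_ne_zero _ (Fact.out : p.Prime).ne_zero

theorem quotient_nilpotent (U : Subgroup R) [U.Normal] (hU : IsOpen (U : Set R)) :
    Group.IsNilpotent (R ⧸ U) := by
  obtain ⟨h1, h2⟩ := quotient_isPGroup h U hU
  exact h1.isNilpotent

theorem exists_le_powSub (φ : T ≃ₜ* Multiplicative (Fin d → ℤ_[p])) (k : ℕ) :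
    ∃ j, closedLCS R j ≤ powSub φ k :=
  exists_closedLCS_le R _ (powSub_isOpen φ (isOpen_T h) k)
    (quotient_nilpotent h _ (powSub_isOpen φ (isOpen_T h) k))

theorem infinite_T : Infinite T := by
  obtain ⟨φ⟩ := h.lattice
  have hd := h.dim_pos
  have : Nonempty (Fin d) := ⟨⟨0, hd⟩⟩
  have h2 : Infinite (Fin d → ℤ_[p]) := inferInstance
  have h3 : Infinite (Multiplicative (Fin d → ℤ_[p])) :=
    Infinite.of_injective Multiplicative.ofAdd Multiplicative.ofAdd.injective
  exact Infinite.of_injective φ.symm φ.symm.injective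

theorem closedLCS_ne (hc : FiniteCoclass p R) (i : ℕ) :
    closedLCS R (i + 1) ≠ closedLCS R i := by
  intro heq
  obtain ⟨φ⟩ := h.lattice
  have hstab : ∀ k, closedLCS R (i + k) = closedLCS R i := by
    intro k
    induction k with
    | zero => rfl
    | succ k ih =>
      have : closedLCS R (i + (k + 1)) =
          (⁅closedLCS R (i + k), (⊤ : Subgroup R)⁆).topologicalClosure := rfl
      rw [this, ih]
      exact heq
  have hbot : closedLCS R i = ⊥ := by
    rw [eq_bot_iff]
    intro x hx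
    rw [Subgroup.mem_bot]
    apply eq_one_of_forall_powSub φ
    intro k
    obtain ⟨j, hj⟩ := exists_le_powSub h φ k
    apply hj
    have h1 : x ∈ closedLCS R (i + j) := by rw [hstab j]; exact hx
    exact closedLCS_antitone R (Nat.le_add_left j i) h1
  obtain ⟨r, hr⟩ := hc
  obtain ⟨t, -, ht⟩ := hr i
  have hcard : (closedLCS R i).index ≠ 0 := by
    have : (closedLCS R i).index = p ^ (Group.nilpotencyClass (R ⧸ closedLCS R i) + t) := ht
    rw [this]
    exact pow_ne_zero _ (Fact.out : p.Prime).ne_zero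
  rw [hbot, Subgroup.index_bot] at hcard
  have hfin : Finite R := Nat.finite_of_card_ne_zero hcard
  have := infinite_T h
  exact not_finite T

end spaceGroup

end Pool.Agent.Helper56.Coclass
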