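import Pool.Agent.Helper56.Coclass.Action

/-!
# The lattices given by the closed lower central series
-/

set_option linter.unusedSectionVars false
set_option linter.unusedVariables false

namespace Pool.Agent.Helper56.Coclass

open Pool.Agent.Helper11.Coclass Subgroup

variable {p : ℕ} [Fact p.Prime] {R : Type*} [Group R] [TopologicalSpace R]
  [IsTopologicalGroup R] {T : Subgroup R} {d : ℕ}

section pull

variable (φ : T ≃ₜ* Multiplicative (Fin d → ℤ_[p]))

/-- The preimage in the lattice of a closed subgroup. -/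
noncomputable def pull (K : Subgroup R) (hK : IsClosed (K : Set R)) :
    Submodule ℤ_[p] (Fin d → ℤ_[p]) where
  carrier := {v | emb φ v ∈ K}
  add_mem' := by
    intro v w hv hw
    change emb φ (v + w) ∈ K
    rw [emb_add]
    exact K.mul_mem hv hw
  zero_mem' := by
    change emb φ 0 ∈ K
    rw [emb_zero]
    exact K.one_mem
  smul_mem' := by
    intro c v hv
    change emb φ (c • v) ∈ K
    have hnat : ∀ n : ℕ, emb φ (((n : ℕ) : ℤ_[p]) • v) ∈ K := by
      intro n
      induction n with
      | zero => simp [emb_zero, K.one_mem]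
      | succ n ih =>
        rw [Nat.cast_succ, add_smul, emb_add, one_smul]
        exact K.mul_mem ih hv
    have hcont : Continuous fun c : ℤ_[p] => emb φ (c • v) :=
      (emb_continuous φ).comp (continuous_id.smul continuous_const)
    have hcl : IsClosed {c : ℤ_[p] | emb φ (c • v) ∈ K} := hK.preimage hcont
    exact DenseRange.induction_on (PadicInt.denseRange_natCast (p := p)) c hcl hnat

theorem mem_pull (K : Subgroup R) (hK : IsClosed (K : Set R)) (v : Fin d → ℤ_[p]) :
    v ∈ pull φ K hK ↔ emb φ v ∈ K := Iff.rfl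

theorem relIndex_pull (K K' : Subgroup R) (hK : IsClosed (K : Set R))
    (hK' : IsClosed (K' : Set R)) (hT : K ≤ T) :
    (pull φ K' hK').toAddSubgroup.relIndex (pull φ K hK).toAddSubgroup = K'.relIndex K := by
  rw [← AddSubgroup.relIndex_toSubgroup]
  have h1 : AddSubgroup.toSubgroup (pull φ K' hK').toAddSubgroup = K'.comap (embHom φ) := rfl
  have h2 : AddSubgroup.toSubgroup (pull φ K hK).toAddSubgroup = K.comap (embHom φ) := rfl
  rw [h1, h2, Subgroup.relIndex_comap, Subgroup.map_comap_eq_self]
  intro x hx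
  obtain ⟨v, rfl⟩ := exists_emb φ (hT hx)
  exact ⟨Multiplicative.ofAdd v, rfl⟩

/-- The image in `R` of an additive subgroup of the lattice. -/
noncomputable def push (B : AddSubgroup (Fin d → ℤ_[p])) : Subgroup R :=
  (AddSubgroup.toSubgroup B).map (embHom φ)

theorem mem_push (B : AddSubgroup (Fin d → ℤ_[p])) (x : R) :
    x ∈ push φ B ↔ ∃ v ∈ B, emb φ v = x := by
  constructor
  · rintro ⟨v, hv, rfl⟩
    exact ⟨Multiplicative.toAdd v, hv, rfl⟩
  · rintro ⟨v, hv, rfl⟩
    exact ⟨Multiplicative.ofAdd v, hv, rfl⟩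

theorem emb_mem_push (B : AddSubgroup (Fin d → ℤ_[p])) (v : Fin d → ℤ_[p]) :
    emb φ v ∈ push φ B ↔ v ∈ B := by
  rw [mem_push]
  constructor
  · rintro ⟨w, hw, h⟩
    rw [← emb_injective φ h]
    exact hw
  · intro h
    exact ⟨v, h, rfl⟩

variable [T.Normal]

/-- The additive subgroup generated by all `g x - x`, `x ∈ A`. -/
noncomputable def aug (A : AddSubgroup (Fin d → ℤ_[p])) : AddSubgroup (Fin d → ℤ_[p]) :=
  AddSubgroup.closure {y | ∃ g : R ⧸ T, ∃ x ∈ A, y = rho φ g x - x}

theorem aug_isClosed [Finite (R ⧸ T)] (A : AddSubgroup (Fin d → ℤ_[p]))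
    (hA : IsClosed (A : Set (Fin d → ℤ_[p]))) :
    IsClosed (aug φ A : Set (Fin d → ℤ_[p])) := by
  classical
  have := Fintype.ofFinite (R ⧸ T)
  have hcomp : CompactSpace A := isCompact_iff_compactSpace.mp hA.isCompact
  let F : (R ⧸ T → A) →+ (Fin d → ℤ_[p]) :=
    { toFun := fun x => ∑ g, (rho φ g (x g : Fin d → ℤ_[p]) - (x g : Fin d → ℤ_[p]))
      map_zero' := by simp
      map_add' := by
        intro x y
        rw [← Finset.sum_add_distrib]
        apply Finset.sum_congr rfl
        intro g _
        simp only [Pi.add_apply, AddSubgroup.coe_add, map_add]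
        abel }
  have hF : Continuous F := by
    change Continuous fun x : R ⧸ T → A =>
      ∑ g, (rho φ g (x g : Fin d → ℤ_[p]) - (x g : Fin d → ℤ_[p]))
    apply continuous_finsetSum
    intro g _
    have h1 : Continuous fun x : R ⧸ T → A => (x g : Fin d → ℤ_[p]) :=
      continuous_subtype_val.comp (continuous_apply g)
    exact ((rho_continuous φ g).comp h1).sub h1
  have heq : aug φ A = F.range := by
    apply le_antisymm
    · apply (AddSubgroup.closure_le _).mpr
      rintro y ⟨g, x, hx, rfl⟩
      refine ⟨Pi.single g ⟨x, hx⟩, ?_⟩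
      change ∑ k, (rho φ k ((Pi.single g (⟨x, hx⟩ : A) : R ⧸ T → A) k : Fin d → ℤ_[p]) -
        ((Pi.single g (⟨x, hx⟩ : A) : R ⧸ T → A) k : Fin d → ℤ_[p])) = rho φ g x - x
      rw [Finset.sum_eq_single g]
      · simp
      · intro k _ hk
        simp [Pi.single_eq_of_ne hk]
      · intro hg
        exact absurd (Finset.mem_univ g) hg
    · rintro _ ⟨x, rfl⟩
      change ∑ g, (rho φ g (x g : Fin d → ℤ_[p]) - (x g : Fin d → ℤ_[p])) ∈ aug φ A
      apply AddSubgroup.sum_mem
      intro g _
      apply AddSubgroup.subset_closure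
      exact ⟨g, x g, (x g).2, rfl⟩
  rw [heq]
  have : (F.range : Set (Fin d → ℤ_[p])) = Set.range F := AddMonoidHom.coe_range F
  rw [this]
  exact (isCompact_range hF).isClosed

theorem push_isClosed [T2Space R] (B : AddSubgroup (Fin d → ℤ_[p]))
    (hB : IsClosed (B : Set (Fin d → ℤ_[p]))) : IsClosed (push φ B : Set R) := by
  have h1 : (push φ B : Set R) = emb φ '' (B : Set (Fin d → ℤ_[p])) := by
    ext x
    exact mem_push φ B x
  rw [h1]
  exact (hB.isCompact.image (emb_continuous φ)).isClosed

theorem pull_closedLCS_succ [T2Space R] [Finite (R ⧸ T)] (j : ℕ) (hj : closedLCS R j ≤ T) :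
    (pull φ (closedLCS R (j + 1)) (closedLCS_isClosed R (j + 1))).toAddSubgroup =
      aug φ (pull φ (closedLCS R j) (closedLCS_isClosed R j)).toAddSubgroup := by
  set A := pull φ (closedLCS R j) (closedLCS_isClosed R j) with hA
  apply le_antisymm
  · intro v hv
    have hv' : emb φ v ∈ closedLCS R (j + 1) := hv
    have hAcl : IsClosed (A.toAddSubgroup : Set (Fin d → ℤ_[p])) :=
      (closedLCS_isClosed R j).preimage (emb_continuous φ)
    have hle : closedLCS R (j + 1) ≤ push φ (aug φ A.toAddSubgroup) := by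
      apply Subgroup.topologicalClosure_minimal
      · rw [Subgroup.commutator_le]
        intro x hx r _
        obtain ⟨w, rfl⟩ := exists_emb φ (hj hx)
        rw [mem_push]
        refine ⟨w - rho φ (r : R ⧸ T) w, ?_, ?_⟩
        · rw [← neg_sub]
          apply AddSubgroup.neg_mem
          apply AddSubgroup.subset_closure
          exact ⟨(r : R ⧸ T), w, hx, rfl⟩
        · rw [emb_sub, emb_rho_mk, commutatorElement_def]
          group
      · exact push_isClosed φ _ (aug_isClosed φ _ hAcl)
    exact (emb_mem_push φ _ v).mp (hle hv')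
  · apply (AddSubgroup.closure_le _).mpr
    rintro y ⟨g, x, hx, rfl⟩
    induction g using QuotientGroup.induction_on with
    | H r =>
      change emb φ (rho φ (r : R ⧸ T) x - x) ∈ closedLCS R (j + 1)
      apply commutator_le_closedLCS R j
      rw [Subgroup.commutator_comm, emb_sub, emb_rho_mk]
      exact Subgroup.commutator_mem_commutator (Subgroup.mem_top r) hx

end pull

end Pool.Agent.Helper56.Coclass
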