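import Pool.Agent.Helper11.Coclass.Defs

/-!
# The closed lower central series of a group of finite coclass
-/

namespace Pool.Agent.Helper56.Coclass

open Pool.Agent.Helper11.Coclass Subgroup

section general

variable (R : Type*) [Group R] [TopologicalSpace R] [IsTopologicalGroup R]

theorem closedLCS_isClosed (i : ℕ) : IsClosed (closedLCS R i : Set R) := by
  cases i with
  | zero => exact isClosed_univ
  | succ i => exact Subgroup.isClosed_topologicalClosure _

theorem commutator_le_closedLCS (i : ℕ) :
    ⁅closedLCS R i, (⊤ : Subgroup R)⁆ ≤ closedLCS R (i + 1) :=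
  Subgroup.le_topologicalClosure _

theorem closedLCS_succ_le (i : ℕ) : closedLCS R (i + 1) ≤ closedLCS R i := by
  apply Subgroup.topologicalClosure_minimal _ _ (closedLCS_isClosed R i)
  exact Subgroup.commutator_le_left _ _

theorem closedLCS_antitone : Antitone (closedLCS R) :=
  antitone_nat_of_succ_le (closedLCS_succ_le R)

/-- The lower central series of `R` is below the closed one. -/
theorem lcs_le_closedLCS (i : ℕ) :
    (⊤ : Subgroup R).lowerCentralSeries i ≤ closedLCS R i := by
  induction i with
  | zero => exact le_rfl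
  | succ i ih =>
    exact (Subgroup.commutator_mono ih le_rfl).trans (commutator_le_closedLCS R i)

/-- In the quotient by the closed lower central series the lower central series vanishes. -/
theorem lcs_quotient_closedLCS (i : ℕ) :
    (⊤ : Subgroup (R ⧸ closedLCS R i)).lowerCentralSeries i = ⊥ := by
  have h := Subgroup.map_lowerCentralSeries (⊤ : Subgroup R) (QuotientGroup.mk' (closedLCS R i)) i
  rw [Subgroup.map_top_of_surjective _ (QuotientGroup.mk'_surjective _)] at h
  rw [← h, eq_bot_iff]
  calc _ ≤ (closedLCS R i).map (QuotientGroup.mk' (closedLCS R i)) :=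
        Subgroup.map_mono (lcs_le_closedLCS R i)
    _ = ⊥ := by
        rw [Subgroup.map_eq_bot_iff, QuotientGroup.ker_mk']

theorem class_quotient_le (i : ℕ) : Group.nilpotencyClass (R ⧸ closedLCS R i) ≤ i := by
  have h := lcs_quotient_closedLCS R i
  have : Group.IsNilpotent (R ⧸ closedLCS R i) :=
    Subgroup.nilpotent_iff_lowerCentralSeries.mpr ⟨i, h⟩
  exact Subgroup.lowerCentralSeries_eq_bot_iff_nilpotencyClass_le.mp h

/-- For an open normal subgroup `U` with nilpotent quotient some term of the closed lower central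
series lies in `U`. -/
theorem exists_closedLCS_le (U : Subgroup R) [U.Normal] (hU : IsOpen (U : Set R))
    (hn : Group.IsNilpotent (R ⧸ U)) : ∃ j, closedLCS R j ≤ U := by
  obtain ⟨n, hn⟩ := Subgroup.nilpotent_iff_lowerCentralSeries.mp hn
  have key : ∀ j, closedLCS R j ≤
      ((⊤ : Subgroup (R ⧸ U)).lowerCentralSeries j).comap (QuotientGroup.mk' U) := by
    intro j
    induction j with
    | zero => intro x _; exact Subgroup.mem_top _
    | succ j ih =>
      apply Subgroup.topologicalClosure_minimal
      · rw [Subgroup.commutator_le]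
        intro x hx y _
        rw [Subgroup.mem_comap, map_commutatorElement]
        exact Subgroup.commutator_mem_commutator (ih hx) (Subgroup.mem_top _)
      · apply Subgroup.isClosed_of_isOpen
        apply Subgroup.isOpen_mono (H₁ := U) _ hU
        intro x hx
        rw [Subgroup.mem_comap]
        have : (QuotientGroup.mk' U) x = 1 := by
          rwa [QuotientGroup.mk'_apply, QuotientGroup.eq_one_iff]
        rw [this]
        exact Subgroup.one_mem _
  refine ⟨n, (key n).trans ?_⟩
  rw [hn]
  intro x hx
  rw [Subgroup.mem_comap, Subgroup.mem_bot, QuotientGroup.mk'_apply,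
    QuotientGroup.eq_one_iff] at hx
  exact hx

omit [TopologicalSpace R] [IsTopologicalGroup R] in
/-- If a normal subgroup `Λ` with nilpotent quotient is such that `K ≤ ⁅K, R⁆ Λ` then
`K ≤ Λ`. -/
theorem le_of_le_commutator_sup (K U : Subgroup R) [U.Normal]
    (hn : Group.IsNilpotent (R ⧸ U)) (hK : K ≤ ⁅K, (⊤ : Subgroup R)⁆ ⊔ U) : K ≤ U := by
  obtain ⟨n, hn⟩ := Subgroup.nilpotent_iff_lowerCentralSeries.mp hn
  have key : ∀ j, K.map (QuotientGroup.mk' U) ≤
      (⊤ : Subgroup (R ⧸ U)).lowerCentralSeries j := by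
    intro j
    induction j with
    | zero => exact le_top
    | succ j ih =>
      calc K.map (QuotientGroup.mk' U)
          ≤ (⁅K, (⊤ : Subgroup R)⁆ ⊔ U).map (QuotientGroup.mk' U) := Subgroup.map_mono hK
        _ = ⁅K.map (QuotientGroup.mk' U), (⊤ : Subgroup (R ⧸ U))⁆ := by
            rw [Subgroup.map_sup, Subgroup.map_commutator,
              Subgroup.map_top_of_surjective _ (QuotientGroup.mk'_surjective _)]
            have : U.map (QuotientGroup.mk' U) = ⊥ := by
              rw [Subgroup.map_eq_bot_iff, QuotientGroup.ker_mk']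
            rw [this, sup_bot_eq]
        _ ≤ _ := Subgroup.commutator_mono ih le_rfl
  have h := key n
  rw [hn, le_bot_iff, Subgroup.map_eq_bot_iff, QuotientGroup.ker_mk'] at h
  exact h

/-- If the closed lower central series of a group of finite coclass never stabilises then
eventually all its factors have order `p`. -/
theorem eventually_relIndex_eq {p : ℕ} [hp : Fact p.Prime] (hc : FiniteCoclass p R)
    (hne : ∀ i, closedLCS R (i + 1) ≠ closedLCS R i) :
    ∃ i₀, ∀ i, i₀ ≤ i → (closedLCS R (i + 1)).relIndex (closedLCS R i) = p := by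
  obtain ⟨r, hr⟩ := hc
  choose t ht hcard using hr
  have hp1 : 1 < p := hp.out.one_lt
  have hp0 : 0 < p := hp.out.pos
  set n : ℕ → ℕ := fun i => Group.nilpotencyClass (R ⧸ closedLCS R i) + t i with hn
  have hidx : ∀ i, (closedLCS R i).index = p ^ n i := fun i => hcard i
  have hnle : ∀ i, n i ≤ i + r := fun i => Nat.add_le_add (class_quotient_le R i) (ht i)
  have hrel : ∀ i, (closedLCS R (i + 1)).relIndex (closedLCS R i) * p ^ n i = p ^ n (i + 1) := by
    intro i
    rw [← hidx i, ← hidx (i + 1)]
    exact Subgroup.relIndex_mul_index (closedLCS_succ_le R i)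
  have hlt : ∀ i, n i < n (i + 1) := by
    intro i
    by_contra hcon
    have h1 : p ^ n (i + 1) ≤ p ^ n i := Nat.pow_le_pow_right hp0 (not_lt.mp hcon)
    have h2 := hrel i
    have hpos : 0 < p ^ n i := Nat.pow_pos hp0
    have hpos' : 0 < p ^ n (i + 1) := Nat.pow_pos hp0
    have h3 : (closedLCS R (i + 1)).relIndex (closedLCS R i) = 1 := by
      have h4 : (closedLCS R (i + 1)).relIndex (closedLCS R i) ≤ 1 := by
        by_contra h5
        have h6 : 2 ≤ (closedLCS R (i + 1)).relIndex (closedLCS R i) := by omega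
        have h7 := Nat.mul_le_mul_right (p ^ n i) h6
        omega
      have h8 : (closedLCS R (i + 1)).relIndex (closedLCS R i) ≠ 0 := by
        intro h0
        rw [h0] at h2
        omega
      omega
    exact hne i (le_antisymm (closedLCS_succ_le R i) (Subgroup.relIndex_eq_one.mp h3))
  obtain ⟨i₀, hi₀⟩ : ∃ i₀, ∀ i, (i₀ + r - n i₀) ≤ (i + r - n i) := by
    have hne : (Set.range fun i => i + r - n i).Nonempty := ⟨_, ⟨0, rfl⟩⟩
    obtain ⟨i₀, hi₀⟩ := Nat.sInf_mem hne
    refine ⟨i₀, fun i => ?_⟩
    have hi₀' : i₀ + r - n i₀ = sInf (Set.range fun i => i + r - n i) := hi₀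
    rw [hi₀']
    exact Nat.sInf_le ⟨i, rfl⟩
  have hconst : ∀ k, (i₀ + k) + r - n (i₀ + k) = i₀ + r - n i₀ := by
    intro k
    induction k with
    | zero => rfl
    | succ k ih =>
      have h1 := hi₀ (i₀ + (k + 1))
      have h2 := hlt (i₀ + k)
      have h3 := hnle (i₀ + (k + 1))
      have h4 := hnle (i₀ + k)
      have h5 : i₀ + (k + 1) = i₀ + k + 1 := rfl
      rw [h5] at h1 h3 ⊢
      omega
  refine ⟨i₀, fun i hi => ?_⟩
  obtain ⟨k, rfl⟩ := Nat.exists_eq_add_of_le hi
  have h1 := hconst k
  have h2 := hconst (k + 1)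
  have h3 := hnle (i₀ + (k + 1))
  have h4 := hnle (i₀ + k)
  have h5 : i₀ + (k + 1) = i₀ + k + 1 := rfl
  rw [h5] at h2 h3
  have h6 := hlt (i₀ + k)
  have h7 : n (i₀ + k + 1) = n (i₀ + k) + 1 := by omega
  have h8 := hrel (i₀ + k)
  rw [h7, pow_succ, mul_comm] at h8
  exact Nat.eq_of_mul_eq_mul_left (Nat.pow_pos hp0) h8

end general

end Pool.Agent.Helper56.Coclass
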